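import Pool.Agent.N869.QA.L.Stm

/-!
# Project QA (helper869), part WFBC (helper424): general tools
-/

set_option autoImplicit false
set_option linter.unusedVariables false

open scoped Classical

namespace Pool.Agent.N424.QA

open Finset
open Pool.Agent.N869.QT.G (exC pr)
open Pool.Agent.N869.QA.L

variable {R : Type}

/-- the average of a product over the elements of one colour -/
theorem avg_prod {Q : Type} [Fintype Q] [Nonempty Q] (S T : Finset R) (hT : T ⊆ S) (q : Q)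
    (g : R → ℝ) :
    (∑ c : S → Q, ∏ π ∈ T.filter (fun π => exC S c π = q), g π) / (Fintype.card Q : ℝ) ^ S.card =
      ∏ π ∈ T, (1 - (1 - g π) / Fintype.card Q) := by
  have hr : (Fintype.card Q : ℝ) ≠ 0 := by
    have : 0 < Fintype.card Q := Fintype.card_pos
    positivity
  have h1 : ∀ c : S → Q, ∏ π ∈ T.filter (fun π => exC S c π = q), g π =
      ∏ x : S, (if x.1 ∈ T ∧ c x = q then g x.1 else 1) := by
    intro c
    have e1 : ∀ x : S, (if x.1 ∈ T ∧ c x = q then g x.1 else 1) =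
        (fun π : R => if π ∈ T ∧ exC S c π = q then g π else 1) x.1 := by
      intro x
      have : exC S c x.1 = c x := by
        unfold exC
        rw [dif_pos x.2]
      simp only [this]
    rw [prod_congr rfl fun x _ => e1 x,
      prod_coe_sort S (fun π : R => if π ∈ T ∧ exC S c π = q then g π else 1)]
    rw [← prod_subset hT (f := fun π : R => if π ∈ T ∧ exC S c π = q then g π else 1)
      (fun x _ hx => if_neg fun h => hx h.1), prod_filter]
    refine prod_congr rfl fun x hx => ?_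
    simp only [hx, true_and]
  rw [sum_congr rfl fun c _ => h1 c]
  have h2 := Finset.prod_univ_sum (fun _ : S => (univ : Finset Q))
    (fun x a => if x.1 ∈ T ∧ a = q then g x.1 else (1 : ℝ))
  rw [Fintype.piFinset_univ] at h2
  rw [← h2]
  have h3 : ∀ x : S, ∑ a : Q, (if x.1 ∈ T ∧ a = q then g x.1 else (1 : ℝ)) =
      (fun π : R => (Fintype.card Q : ℝ) *
        (if π ∈ T then 1 - (1 - g π) / Fintype.card Q else 1)) x.1 := by
    intro x
    by_cases hx : x.1 ∈ T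
    · simp only [hx, true_and, if_true]
      have : ∀ a : Q, (if a = q then g x.1 else (1 : ℝ)) = 1 + (if a = q then g x.1 - 1 else 0) := by
        intro a
        split_ifs <;> ring
      rw [sum_congr rfl fun a _ => this a, sum_add_distrib, sum_ite_eq' univ q, if_pos (mem_univ q),
        sum_const, card_univ, nsmul_eq_mul]
      field_simp
      ring
    · simp only [hx, false_and, if_false, sum_const, card_univ, nsmul_eq_mul]
  rw [prod_congr rfl fun x _ => h3 x, prod_coe_sort S (fun π : R => (Fintype.card Q : ℝ) *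
        (if π ∈ T then 1 - (1 - g π) / Fintype.card Q else 1)), prod_mul_distrib, prod_const,
    mul_div_cancel_left₀]
  · rw [← prod_subset hT (f := fun π : R => if π ∈ T then 1 - (1 - g π) / Fintype.card Q else 1)
      (fun x _ hx => if_neg hx)]
    exact prod_congr rfl fun x hx => if_pos hx
  · positivity

/-- the bound for a proportion -/
theorem pr_le {Q : Type} [Fintype Q] [Nonempty Q] (S T : Finset R) (hT : T ⊆ S) {α : Type*}
    (AA : Finset α) (g : α → R → ℝ) (hg : ∀ a ∈ AA, ∀ π ∈ T, 0 ≤ g a π) (M : ℝ) (hM : 0 ≤ M)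
    (P : (R → Q) → Prop)
    (hP : ∀ γ : R → Q, P γ → ∃ q, ∃ a ∈ AA, 1 ≤ M * ∏ π ∈ T.filter (fun π => γ π = q), g a π) :
    pr S P ≤ Fintype.card Q * (M * ∑ a ∈ AA, ∏ π ∈ T, (1 - (1 - g a π) / Fintype.card Q)) := by
  have hr : (0 : ℝ) < Fintype.card Q := by
    have : 0 < Fintype.card Q := Fintype.card_pos
    exact_mod_cast this
  have hpos : ∀ a ∈ AA, ∀ (γ : R → Q) (q : Q), 0 ≤ ∏ π ∈ T.filter (fun π => γ π = q), g a π :=
    fun a ha γ q => prod_nonneg fun π hπ => hg a ha π (filter_subset _ _ hπ)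
  have h1 : ((univ.filter fun c : S → Q => P (exC S c)).card : ℝ) ≤
      ∑ c : S → Q, ∑ q : Q, ∑ a ∈ AA, M * ∏ π ∈ T.filter (fun π => exC S c π = q), g a π := by
    rw [card_filter]
    push_cast
    refine sum_le_sum fun c _ => ?_
    split_ifs with hc
    · obtain ⟨q, a, ha, h⟩ := hP _ hc
      refine h.trans ?_
      refine le_trans ?_ (single_le_sum (f := fun q => ∑ a ∈ AA, M * ∏ π ∈ T.filter
        (fun π => exC S c π = q), g a π) (fun q _ => sum_nonneg fun a ha => mul_nonneg hM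
          (hpos a ha _ _)) (mem_univ q))
      exact single_le_sum (f := fun a => M * ∏ π ∈ T.filter (fun π => exC S c π = q), g a π)
        (fun a ha => mul_nonneg hM (hpos a ha _ _)) ha
    · exact sum_nonneg fun q _ => sum_nonneg fun a ha => mul_nonneg hM (hpos a ha _ _)
  unfold pr
  have h2 : (∑ c : S → Q, ∑ q : Q, ∑ a ∈ AA, M * ∏ π ∈ T.filter (fun π => exC S c π = q), g a π) /
      (Fintype.card Q : ℝ) ^ S.card =
      Fintype.card Q * (M * ∑ a ∈ AA, ∏ π ∈ T, (1 - (1 - g a π) / Fintype.card Q)) := by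
    rw [sum_comm, sum_div]
    have : ∀ q : Q, (∑ c : S → Q, ∑ a ∈ AA, M * ∏ π ∈ T.filter (fun π => exC S c π = q), g a π) /
      (Fintype.card Q : ℝ) ^ S.card = M * ∑ a ∈ AA, ∏ π ∈ T, (1 - (1 - g a π) / Fintype.card Q) := by
      intro q
      rw [sum_comm, sum_div, mul_sum]
      refine sum_congr rfl fun a _ => ?_
      rw [← avg_prod S T hT q, ← mul_sum, mul_div_assoc]
    rw [sum_congr rfl fun q _ => this q, sum_const, card_univ, nsmul_eq_mul]
  rw [← h2]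
  exact div_le_div_of_nonneg_right h1 (by positivity)

theorem h_le {r : ℝ} (hr : 1 ≤ r) {g : ℝ} (h1 : 1 / 3 ≤ g) (h2 : g ≤ 1) :
    1 - (1 - g) / r ≤ g ^ (1 / (3 * r)) := by
  have hg : 0 < g := by linarith
  rw [Real.rpow_def_of_pos hg]
  have h3 : 1 - (1 - g) / r ≤ Real.exp (-((1 - g) / r)) := by
    have := Real.add_one_le_exp (-((1 - g) / r))
    linarith
  refine h3.trans (Real.exp_le_exp.2 ?_)
  have h4 : 1 - g⁻¹ ≤ Real.log g := Real.one_sub_inv_le_log_of_pos hg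
  have h5 : -(3 * (1 - g)) ≤ Real.log g := by
    refine le_trans ?_ h4
    have h6 : g⁻¹ ≤ 3 := by
      rw [inv_le_comm₀ hg (by norm_num)]
      linarith
    have h7 : g⁻¹ - 1 = g⁻¹ * (1 - g) := by
      field_simp
    nlinarith
  have h8 : -((1 - g) / r) = -(3 * (1 - g)) * (1 / (3 * r)) := by
    field_simp
  rw [h8]
  exact mul_le_mul_of_nonneg_right h5 (by positivity)

theorem holder {ι : Type*} (s : Finset ι) (W G : ι → ℝ) (hW : ∀ i ∈ s, 0 ≤ W i)
    (hG : ∀ i ∈ s, 0 ≤ G i) {θ : ℝ} (h0 : 0 < θ) (h1 : θ < 1) :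
    ∑ i ∈ s, W i * G i ^ θ ≤ (∑ i ∈ s, W i * G i) ^ θ * (∑ i ∈ s, W i) ^ (1 - θ) := by
  have hpq : (1 / θ).HolderConjugate (1 / (1 - θ)) := by
    rw [Real.holderConjugate_iff]
    constructor
    · rw [lt_div_iff₀ h0]
      linarith
    · rw [one_div, one_div, inv_inv, inv_inv]
      ring
  have h := Real.inner_le_Lp_mul_Lq_of_nonneg s (f := fun i => (W i * G i) ^ θ)
    (g := fun i => W i ^ (1 - θ)) hpq
    (fun i hi => Real.rpow_nonneg (mul_nonneg (hW i hi) (hG i hi)) _)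
    (fun i hi => Real.rpow_nonneg (hW i hi) _)
  have e1 : ∀ i ∈ s, (W i * G i) ^ θ * W i ^ (1 - θ) = W i * G i ^ θ := by
    intro i hi
    rw [Real.mul_rpow (hW i hi) (hG i hi), mul_right_comm, ← Real.rpow_add_of_nonneg (hW i hi) h0.le
      (by linarith)]
    rw [show θ + (1 - θ) = 1 by ring, Real.rpow_one]
  have e2 : ∀ i ∈ s, ((W i * G i) ^ θ) ^ (1 / θ) = W i * G i := by
    intro i hi
    rw [← Real.rpow_mul (mul_nonneg (hW i hi) (hG i hi)), mul_one_div_cancel h0.ne', Real.rpow_one]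
  have e3 : ∀ i ∈ s, (W i ^ (1 - θ)) ^ (1 / (1 - θ)) = W i := by
    intro i hi
    rw [← Real.rpow_mul (hW i hi), mul_one_div_cancel (by linarith), Real.rpow_one]
  rw [sum_congr rfl e1, sum_congr rfl e2, sum_congr rfl e3, one_div_one_div, one_div_one_div] at h
  exact h

lemma one_le_L1 {X : ℕ} (hX : 1 ≤ X) : 1 ≤ L1 X := by
  unfold L1
  have : 0 ≤ Real.log X := Real.log_natCast_nonneg X
  linarith

/-- the weighted sums of `g ^ θ` -/
theorem sum_theta (h1 : S_WALL) (h2 : S_WH) (G : GP R) (D : ℝ) (hD : Up G D) (w : ℕ) (hw : 1 ≤ w)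
    (θ : ℝ) (h0 : 0 < θ) (hθ : θ < 1) : ∃ C : ℝ, 1 ≤ C ∧ ∀ (g : R → ℝ) (B : ℝ), 1 ≤ B →
      (∀ π, G.Pq π → 0 ≤ g π ∧ g π ≤ 1) → Sav G g B → ∀ Y : ℕ, 1 ≤ Y →
      ∑ S ∈ SAg G Y, (w : ℝ) ^ S.card * ∏ π ∈ S, g π ^ θ ≤
        C * B * (Y * L1 Y ^ (w - 1)) * L1 Y ^ (-(θ / 3)) := by
  obtain ⟨C₁, hC₁, H1⟩ := h1 R G D hD w hw
  obtain ⟨C₂, hC₂, H2⟩ := h2 R G D hD w hw
  refine ⟨C₁ * C₂, one_le_mul_of_one_le_of_one_le hC₁ hC₂, ?_⟩
  intro g B hB hg hS Y hY
  have hL : 1 ≤ L1 Y := one_le_L1 hY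
  have hL0 : 0 < L1 Y := by linarith
  have hP : ∀ S ∈ SAg G Y, ∀ π ∈ S, G.Pq π := by
    intro S hS π hπ
    unfold SAg at hS
    rw [mem_filter, mem_powerset] at hS
    exact ((G.mem Y π).1 (hS.1 hπ)).2
  have e1 : ∑ S ∈ SAg G Y, (w : ℝ) ^ S.card * ∏ π ∈ S, g π ^ θ =
      ∑ S ∈ SAg G Y, (w : ℝ) ^ S.card * (∏ π ∈ S, g π) ^ θ := by
    refine sum_congr rfl fun S hS => ?_
    rw [Real.finsetProd_rpow _ _ (fun π hπ => (hg π (hP S hS π hπ)).1)]
  rw [e1]
  have h3 := holder (SAg G Y) (fun S => (w : ℝ) ^ S.card) (fun S => ∏ π ∈ S, g π)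
    (fun S _ => by positivity) (fun S hS => prod_nonneg fun π hπ => (hg π (hP S hS π hπ)).1) h0 hθ
  refine h3.trans ?_
  have h4 := H2 g B (by linarith) hg hS Y hY
  have h5 := H1 Y hY
  unfold WS at h5
  set Z : ℝ := Y * L1 Y ^ (w - 1) with hZ
  have hZ0 : 0 ≤ Z := by positivity
  have h6 : (∑ S ∈ SAg G Y, (w : ℝ) ^ S.card * ∏ π ∈ S, g π) ^ θ ≤
      (C₂ * B * (Z * L1 Y ^ (-(1 / 3) : ℝ))) ^ θ := by
    refine Real.rpow_le_rpow (sum_nonneg fun S hS => mul_nonneg (by positivity)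
      (prod_nonneg fun π hπ => (hg π (hP S hS π hπ)).1)) ?_ h0.le
    refine h4.trans (le_of_eq ?_)
    rw [hZ]
    ring
  have h7 : (∑ S ∈ SAg G Y, (w : ℝ) ^ S.card) ^ (1 - θ) ≤ (C₁ * Z) ^ (1 - θ) :=
    Real.rpow_le_rpow (sum_nonneg fun S _ => by positivity) h5 (by linarith)
  have hr0 : 0 ≤ L1 Y ^ (-(1 / 3) : ℝ) := Real.rpow_nonneg hL0.le _
  have h8 : (C₂ * B * (Z * L1 Y ^ (-(1 / 3) : ℝ))) ^ θ = (C₂ * B) ^ θ * Z ^ θ * L1 Y ^ (-(θ / 3)) := by
    rw [Real.mul_rpow (by positivity) (by positivity), Real.mul_rpow hZ0 hr0,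
      ← Real.rpow_mul hL0.le, mul_assoc]
    congr 3
    ring
  have h9 : (C₁ * Z) ^ (1 - θ) = C₁ ^ (1 - θ) * Z ^ (1 - θ) :=
    Real.mul_rpow (by positivity) hZ0
  have h10 : (C₂ * B) ^ θ ≤ C₂ * B := by
    have : (C₂ * B) ^ θ ≤ (C₂ * B) ^ (1 : ℝ) :=
      Real.rpow_le_rpow_of_exponent_le (one_le_mul_of_one_le_of_one_le hC₂ hB) hθ.le
    rwa [Real.rpow_one] at this
  have h11 : C₁ ^ (1 - θ) ≤ C₁ := by
    have : C₁ ^ (1 - θ) ≤ C₁ ^ (1 : ℝ) :=
      Real.rpow_le_rpow_of_exponent_le hC₁ (by linarith)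
    rwa [Real.rpow_one] at this
  have h12 : Z ^ θ * Z ^ (1 - θ) = Z := by
    rw [← Real.rpow_add_of_nonneg hZ0 h0.le (by linarith), show θ + (1 - θ) = 1 by ring,
      Real.rpow_one]
  have hr1 : 0 ≤ L1 Y ^ (-(θ / 3)) := Real.rpow_nonneg hL0.le _
  calc _ ≤ (C₂ * B * (Z * L1 Y ^ (-(1 / 3) : ℝ))) ^ θ * (C₁ * Z) ^ (1 - θ) :=
        mul_le_mul h6 h7 (Real.rpow_nonneg (sum_nonneg fun S _ => by positivity) _)
          (Real.rpow_nonneg (by positivity) _)
    _ = ((C₂ * B) ^ θ * C₁ ^ (1 - θ)) * (Z ^ θ * Z ^ (1 - θ)) * L1 Y ^ (-(θ / 3)) := by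
        rw [h8, h9]
        ring
    _ ≤ ((C₂ * B) * C₁) * (Z ^ θ * Z ^ (1 - θ)) * L1 Y ^ (-(θ / 3)) := by
        gcongr
    _ = C₁ * C₂ * B * Z * L1 Y ^ (-(θ / 3)) := by
        rw [h12]
        ring

end Pool.Agent.N424.QA
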