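import Pool.Agent.N869.QA.Stm
import Pool.Agent.R426.QK.FB
import Pool.Agent.R426.QK.Jsum
import Pool.Agent.N424.QA.Gen

/-!
# Project QA (helper869), part WFBC (helper424): degenerate labels are rare, with weights
-/

set_option autoImplicit false
set_option linter.unusedVariables false
set_option maxHeartbeats 4000000

open scoped Classical

namespace Pool.Agent.N424.QA

open Finset Filter
open Pool.Agent.R426.QK
open Pool.Agent.R426.QK.FB hiding mem_SB ez_zero
open Pool.Agent.Y698 (RR e7 e7_sq e7_eq_zero fR cj aR nR mul_cj cj_cj)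
open Pool.Agent.Y703.CX (eL zz kk)
open Pool.Agent.Y495.CX.Few (eL_tendsto log_small zz_ge loglog_zz rpow_eq)
open Pool.Agent.N869.QT (SA NdC)
open Pool.Agent.N869.QA (gpR SAg_eq S_WFBC)
open Pool.Agent.N869.QT.G (exC pr)
open Pool.Agent.N869.QA.L (SAg L1 Sav Up S_WALL S_WH)

lemma mem_SA {X : ℕ} {S : Finset RR} : S ∈ SA X ↔ (∀ π ∈ S, Pq π) ∧ pN S ≤ X := by
  unfold SA
  rw [mem_filter, mem_powerset]
  constructor
  · rintro ⟨h1, h2⟩
    exact ⟨fun π hπ => (mem_QB.1 (h1 hπ)).2, h2⟩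
  · rintro ⟨h1, h2⟩
    refine ⟨fun π hπ => mem_QB.2 ⟨?_, h1 π hπ⟩, h2⟩
    refine le_trans ?_ h2
    exact single_le_prod' (f := nrm) (fun ρ hρ => nrm_pos' (pq_ne (h1 ρ hρ))) hπ

lemma L1_le {T : ℕ} (hT : 1 ≤ T) : L1 T / 2 ≤ lgn T := by
  have h1 := log_le_lgn hT
  have h2 := one_le_lgn T
  unfold L1
  linarith

/-- the input for the general bound -/
theorem sav {C : ℝ} (hC1 : 1 ≤ C)
    (hC : ∀ (n : RR) (i j : ℕ), PS n → i < 2 → j < 2 → (n ≠ 1 ∨ i ≠ 0 ∨ j ≠ 0) → ∀ T : ℕ,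
      ∑ a ∈ SB T, mf (fun π => (2 + (xr n i j π).re) / 3) a ≤
        C * (lgn (nrm n)) ^ (1 / 3 : ℝ) * (T * (lgn T) ^ (-(1 / 3) : ℝ)))
    (n : RR) (i j : ℕ) (hn : PS n) (hi : i < 2) (hj : j < 2) (hne : n ≠ 1 ∨ i ≠ 0 ∨ j ≠ 0)
    {N : ℕ} (hN : nrm n ≤ N) :
    Sav gpR (fun π => (2 + (xr n i j π).re) / 3) (2 * C * lgn N) := by
  intro X hX
  rw [SAg_eq]
  have hg0 : ∀ π, 0 ≤ (2 + (xr n i j π).re) / 3 := fun π => by
    have := g_ge n i j π
    linarith
  have h1 : ∑ S ∈ SA X, ∏ π ∈ S, (2 + (xr n i j π).re) / 3 ≤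
      ∑ a ∈ SB X, mf (fun π => (2 + (xr n i j π).re) / 3) a := by
    refine sum_le_inj (fun S => ∏ π ∈ S, π) ?_ ?_ ?_ ?_
    · intro S hS
      rw [mem_SA] at hS
      rw [mem_SB]
      exact ⟨by rw [nrm_prod]; exact hS.2, (PS_prod hS.1).1⟩
    · intro S hS T hT h
      rw [mem_SA] at hS hT
      rw [← (PS_prod hS.1).2, ← (PS_prod hT.1).2]
      exact congrArg Pool.Agent.R426.QK.PD h
    · intro S hS
      rw [mem_SA] at hS
      refine le_of_eq ?_
      unfold mf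
      rw [(PS_prod hS.1).2]
    · intro a _
      exact mf_nonneg hg0 a
  refine h1.trans ((hC n i j hn hi hj hne X).trans ?_)
  have h2 : (lgn X) ^ (-(1 / 3) : ℝ) ≤ 2 * L1 X ^ (-(1 / 3) : ℝ) := by
    have hL := one_le_L1 hX
    have e1 : (lgn X) ^ (-(1 / 3) : ℝ) ≤ (L1 X / 2) ^ (-(1 / 3) : ℝ) :=
      Real.rpow_le_rpow_of_nonpos (by linarith) (L1_le hX) (by norm_num)
    refine e1.trans ?_
    rw [Real.div_rpow (by linarith) (by norm_num), div_eq_mul_inv, ← Real.rpow_neg (by norm_num),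
      neg_neg, mul_comm]
    refine mul_le_mul_of_nonneg_right ?_ (Real.rpow_nonneg (by linarith) _)
    calc (2:ℝ) ^ (1 / 3 : ℝ) ≤ 2 ^ (1:ℝ) :=
          Real.rpow_le_rpow_of_exponent_le (by norm_num) (by norm_num)
      _ = 2 := Real.rpow_one _
  have h4 : (lgn (nrm n)) ^ (1 / 3 : ℝ) ≤ lgn N := by
    calc (lgn (nrm n)) ^ (1 / 3 : ℝ) ≤ (lgn (nrm n)) ^ (1 : ℝ) :=
          Real.rpow_le_rpow_of_exponent_le (one_le_lgn _) (by norm_num)
      _ = lgn (nrm n) := Real.rpow_one _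
      _ ≤ lgn N := lgn_mono hN
  have h5 := one_le_lgn N
  have h6 : 0 ≤ (lgn (nrm n)) ^ (1 / 3 : ℝ) := Real.rpow_nonneg (by have := one_le_lgn (nrm n); linarith) _
  have h7 : 0 ≤ (lgn X) ^ (-(1 / 3) : ℝ) := Real.rpow_nonneg (by have := one_le_lgn X; linarith) _
  calc C * (lgn (nrm n)) ^ (1 / 3 : ℝ) * (X * (lgn X) ^ (-(1 / 3) : ℝ)) ≤
      C * lgn N * (X * (2 * L1 X ^ (-(1 / 3) : ℝ))) := by gcongr
    _ = _ := by ring

/-- the fibres -/
theorem fiber (X z w : ℕ) (S₀ : Finset RR) (hS₀ : ∀ u ∈ S₀, Pq u)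
    (F : Finset (Finset RR)) (hF : ∀ S ∈ F, S ∈ SA X ∧ sm z S = S₀) (f : RR → ℝ)
    (hf : ∀ π, 0 ≤ f π) :
    ∑ S ∈ F, (w : ℝ) ^ S.card * ∏ π ∈ la z S, f π ≤
      (w : ℝ) ^ S₀.card * ∑ T ∈ SA (X / pN S₀), (w : ℝ) ^ T.card * ∏ π ∈ T, f π := by
  rw [mul_sum]
  have key : ∀ S : Finset RR, sm z S ∪ la z S = S := fun S => filter_union_filter_not_eq _ _
  refine sum_le_inj (la z) ?_ ?_ ?_ ?_
  · intro S hS
    obtain ⟨h1, h2⟩ := hF S hS
    rw [mem_SA] at h1 ⊢
    refine ⟨fun π hπ => h1.1 π (filter_subset _ _ hπ), ?_⟩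
    rw [Nat.le_div_iff_mul_le (pN_pos hS₀), mul_comm]
    have : (∏ π ∈ sm z S, nrm π) * ∏ π ∈ la z S, nrm π = ∏ π ∈ S, nrm π :=
      prod_filter_mul_prod_filter_not _ _ _
    refine le_trans (le_of_eq ?_) h1.2
    unfold pN
    rw [← h2, this]
  · intro S hS T hT h
    rw [← key S, ← key T, (hF S hS).2, (hF T hT).2, h]
  · intro S hS
    refine le_of_eq ?_
    have h1 : S.card = S₀.card + (la z S).card := by
      have : (sm z S).card + (la z S).card = S.card := card_filter_add_card_filter_not _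
      rw [← (hF S hS).2, this]
    rw [h1, pow_add, mul_assoc]
  · intro T hT
    exact mul_nonneg (by positivity) (mul_nonneg (by positivity) (prod_nonneg fun π _ => hf π))

/-- the sets and the exponents -/
noncomputable def PP (S₀ : Finset RR) : Finset (Finset RR × ℕ × ℕ) :=
  (S₀.powerset ×ˢ (range 2 ×ˢ range 2)).filter fun p => p.1 ≠ ∅ ∨ p.2.1 ≠ 0 ∨ p.2.2 ≠ 0

lemma mem_PP {S₀ : Finset RR} {p : Finset RR × ℕ × ℕ} : p ∈ PP S₀ ↔
    (p.1 ⊆ S₀ ∧ p.2.1 < 2 ∧ p.2.2 < 2) ∧ (p.1 ≠ ∅ ∨ p.2.1 ≠ 0 ∨ p.2.2 ≠ 0) := by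
  unfold PP
  rw [mem_filter, mem_product, mem_product, mem_powerset, mem_range, mem_range]

lemma card_PP (S₀ : Finset RR) : ((PP S₀).card : ℝ) ≤ 4 * 2 ^ S₀.card := by
  have : (PP S₀).card ≤ 2 ^ S₀.card * (2 * 2) := by
    refine (card_filter_le _ _).trans (le_of_eq ?_)
    rw [card_product, card_product, card_powerset, card_range]
  have h' : ((PP S₀).card : ℝ) ≤ ((2 ^ S₀.card * (2 * 2) : ℕ) : ℝ) := by exact_mod_cast this
  refine h'.trans (le_of_eq ?_)
  push_cast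
  ring

/-- the functions -/
noncomputable def gp (p : Finset RR × ℕ × ℕ) (π : RR) : ℝ :=
  (2 + (xr (∏ u ∈ p.1, u) p.2.1 p.2.2 π).re) / 3

lemma gp_ge (p : Finset RR × ℕ × ℕ) (π : RR) : 1 / 3 ≤ gp p π := g_ge _ _ _ _

lemma gp_le (p : Finset RR × ℕ × ℕ) (π : RR) : gp p π ≤ 1 := by
  have h := xr_norm (∏ u ∈ p.1, u) p.2.1 p.2.2 π
  have h1 := (abs_le.1 (Complex.abs_re_le_norm (xr (∏ u ∈ p.1, u) p.2.1 p.2.2 π))).2
  unfold gp
  linarith

/-- the pointwise bound -/
theorem pt (hR : RecP) {Q : Type} [Fintype Q] [Nonempty Q] (X z K m : ℕ) (S : Finset RR)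
    (hS : S ∈ SA X) (S₀ : Finset RR) (hS₀ : sm z S = S₀)
    (hm : K * (S₀.card + Nat.log 2 (la z S).card + 1) ≤ m) :
    pr S (fun γ : RR → Q => ¬ NdC K γ (sm z S) (la z S)) ≤
      Fintype.card Q * (3 ^ m * ∑ p ∈ PP S₀, ∏ π ∈ la z S, gp p π ^ (1 / (3 * (Fintype.card Q : ℝ)))) := by
  have hr : (1 : ℝ) ≤ Fintype.card Q := by
    have : 0 < Fintype.card Q := Fintype.card_pos
    exact_mod_cast this
  rw [mem_SA] at hS
  have hla : ∀ π ∈ la z S, Pq π ∧ π ∉ S₀ := by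
    intro π hπ
    unfold la at hπ
    rw [mem_filter] at hπ
    refine ⟨hS.1 π hπ.1, fun h => ?_⟩
    rw [← hS₀] at h
    unfold sm at h
    exact hπ.2 (mem_filter.1 h).2
  have hS₀q : ∀ u ∈ S₀, Pq u := fun u hu => hS.1 u (filter_subset _ _ (by rw [← hS₀] at hu; exact hu))
  have h1 := pr_le S (la z S) (filter_subset _ _) (PP S₀) gp
    (fun p _ π _ => by have := gp_ge p π; linarith) (3 ^ m) (by positivity)
    (fun γ : RR → Q => ¬ NdC K γ (sm z S) (la z S)) (by
      intro γ hγ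
      unfold NdC at hγ
      push Not at hγ
      obtain ⟨q, hq⟩ := hγ
      rw [hS₀] at hq
      refine ⟨q, ?_⟩
      by_cases hN : Nd S₀ ((la z S).filter fun π => γ π = q)
      · have hlt := hq hN
        refine ⟨(∅, 0, 1), ?_, ?_⟩
        · rw [mem_PP]
          exact ⟨⟨empty_subset _, by norm_num, by norm_num⟩, Or.inr (Or.inr one_ne_zero)⟩
        · have e1 : ∏ π ∈ (la z S).filter (fun π => γ π = q), gp (∅, 0, 1) π =
              ∏ π ∈ (la z S).filter (fun π => γ π = q ∧ tt π = 1), gp (∅, 0, 1) π := by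
            rw [← filter_filter, prod_filter (s := (la z S).filter fun π => γ π = q)]
            refine prod_congr rfl fun π hπ => ?_
            by_cases htt : tt π = 1
            · rw [if_pos htt]
            · rw [if_neg htt]
              have h0 : tt π = 0 := by
                have key : ∀ c : ZMod 2, c ≠ 1 → c = 0 := by decide
                exact key _ htt
              have h1 := xr_ez (A := ∅) (fun u hu => absurd hu (Finset.notMem_empty u))
                (i := 0) (j := 1) (by norm_num) (by norm_num)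
                (hla π (filter_subset _ _ hπ)).1 (Finset.notMem_empty π)
              rw [sum_empty, h0] at h1
              have h2 : ((0 : ZMod 2) + ((0 : ℕ) : ZMod 2) * ss π + ((1 : ℕ) : ZMod 2) * 0) = 0 := by
                rw [Nat.cast_zero, zero_mul, mul_zero, add_zero, add_zero]
              rw [h2, ez_zero] at h1
              unfold gp
              rw [h1]
              norm_num
          rw [e1]
          have e2 : ((1 : ℝ) / 3) ^ m ≤
              ∏ π ∈ (la z S).filter (fun π => γ π = q ∧ tt π = 1), gp (∅, 0, 1) π := by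
            calc ((1 : ℝ) / 3) ^ m ≤ (1 / 3) ^ ((la z S).filter
                  (fun π => γ π = q ∧ tt π = 1)).card :=
                  pow_le_pow_of_le_one (by norm_num) (by norm_num) (hlt.le.trans hm)
              _ = ∏ _π ∈ (la z S).filter (fun π => γ π = q ∧ tt π = 1), ((1 : ℝ) / 3) := by
                  rw [prod_const]
              _ ≤ _ := prod_le_prod (fun _ _ => by norm_num) fun π _ => gp_ge _ π
          calc (1 : ℝ) = 3 ^ m * (1 / 3) ^ m := by
                rw [← mul_pow]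
                norm_num
            _ ≤ _ := mul_le_mul_of_nonneg_left e2 (by positivity)
      · obtain ⟨A, i, j, hA, hi, hj, hAij, hDg⟩ := notNd hR hS₀q
          (fun π hπ => hla π (filter_subset _ _ hπ)) hN
        refine ⟨(A, i, j), ?_, ?_⟩
        · rw [mem_PP]
          exact ⟨⟨hA, hi, hj⟩, hAij⟩
        · have e1 : ∏ π ∈ (la z S).filter (fun π => γ π = q), gp (A, i, j) π = 1 := by
            refine prod_eq_one fun π hπ => ?_
            have h2 := hla π (filter_subset _ _ hπ)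
            unfold gp
            rw [xr_ez (fun u hu => hS₀q u (hA hu)) hi hj h2.1 (fun h => h2.2 (hA h)),
              hDg π hπ, ez_zero]
            norm_num
          rw [e1, mul_one]
          exact one_le_pow₀ (by norm_num))
  refine h1.trans ?_
  refine mul_le_mul_of_nonneg_left (mul_le_mul_of_nonneg_left (sum_le_sum fun p _ =>
    prod_le_prod (fun π _ => ?_) fun π _ => h_le hr (gp_ge p π) (gp_le p π)) (by positivity))
    (by positivity)
  have h2 := gp_ge p π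
  have h3 : (1 - gp p π) / (Fintype.card Q : ℝ) ≤ 1 := by
    rw [div_le_one (by linarith)]
    linarith
  linarith

/-- the general estimate -/
theorem genW (hM : S_MERT) (A w p : ℕ) (a b θ : ℝ) (ha : 0 ≤ a) (hb : 0 ≤ b) (hθ : 0 < θ)
    (hθ1 : θ ≤ 1) (Fn : ℕ → Finset RR → ℝ)
    (hcount : ∀ (X : ℕ) (S₀ : Finset RR), (∀ u ∈ S₀, Pq u ∧ nrm u ≤ zz X) →
      S₀.card ≤ A * kk X → 1 ≤ X / pN S₀ →
      ∑ S ∈ ((SA X).filter fun S => S.card ≤ A * kk X).filter (fun S => sm (zz X) S = S₀), Fn X S ≤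
        b * (A * kk X + 1 : ℝ) ^ p * a ^ S₀.card * lgn (pN S₀) * (((X / pN S₀ : ℕ) : ℝ) *
          L1 (X / pN S₀) ^ (w - 1) * L1 (X / pN S₀) ^ (-θ))) :
    ∀ ε : ℝ, 0 < ε → ∃ X₀ : ℕ, ∀ X : ℕ, X₀ ≤ X →
      ∑ S ∈ (SA X).filter (fun S => S.card ≤ A * kk X), Fn X S ≤ ε * (X * L1 X ^ (w - 1)) := by
  intro ε hε
  obtain ⟨C, hC0, hC⟩ := hM
  -- the constant
  set B₀ : ℝ := 3 * b * (11 * A + 1) ^ p * (33 * A + 1) * Real.exp (a * C) with hB₀
  have hB₀0 : 0 ≤ B₀ := by positivity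
  have hlim : Tendsto (fun l : ℝ => B₀ * Real.exp (-(θ / 2) * l)) atTop (nhds 0) := by
    have h1 : Tendsto (fun l : ℝ => Real.exp (-(θ / 2) * l)) atTop (nhds 0) := by
      refine Real.tendsto_exp_atBot.comp ?_
      exact tendsto_id.const_mul_atTop_of_neg (by linarith)
    have := h1.const_mul B₀
    rwa [mul_zero] at this
  have hpow : ∀ᶠ l : ℝ in atTop, 33 * A * l ^ 4 + 3 ≤ Real.exp l := by
    have h1 := (Real.isLittleO_pow_exp_atTop (n := 4)).bound
      (show (0:ℝ) < 1 / (33 * A + 3) by positivity)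
    filter_upwards [h1, eventually_ge_atTop (2:ℝ)] with l hl hl2
    rw [Real.norm_of_nonneg (by positivity), Real.norm_of_nonneg (Real.exp_pos _).le] at hl
    have h2 : (16:ℝ) ≤ l ^ 4 := by
      have := pow_le_pow_left₀ (by norm_num : (0:ℝ) ≤ 2) hl2 4
      linarith
    rw [div_mul_eq_mul_div, one_mul, le_div_iff₀ (by positivity)] at hl
    have h3 : (0:ℝ) ≤ A := Nat.cast_nonneg _
    nlinarith
  have hev := (((eL_tendsto.eventually (log_small (p + 4 + 6 * a) (θ / 2) (by linarith))).and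
    (eL_tendsto.eventually (eventually_ge_atTop 2))).and
    (eL_tendsto.eventually (hlim.eventually (gt_mem_nhds hε)))).and (eL_tendsto.eventually hpow)
  obtain ⟨X₀, hX₀⟩ := eventually_atTop.1 hev
  refine ⟨max X₀ 3, fun X hX => ?_⟩
  obtain ⟨⟨⟨k1, k2⟩, k3⟩, k4⟩ := hX₀ X ((le_max_left _ _).trans hX)
  have hX3 : 3 ≤ X := (le_max_right _ _).trans hX
  set ℓ : ℝ := eL X with hℓ
  set z : ℕ := zz X with hz
  set k : ℕ := kk X with hk
  have hl0 : 0 < ℓ := by linarith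
  have hA0 : (0:ℝ) ≤ A := Nat.cast_nonneg _
  have hlX : Real.log X = Real.exp ℓ := by
    have := rpow_eq (X := X) k2 1
    rwa [Real.rpow_one, one_mul] at this
  have hX0 : (0 : ℝ) < X := by exact_mod_cast (by omega : 0 < X)
  have hk11 : (k : ℝ) ≤ 11 * ℓ := by
    have h := Nat.ceil_lt_add_one (show (0 : ℝ) ≤ 10 * eL X by rw [← hℓ]; positivity)
    have h' : (k : ℝ) < 10 * ℓ + 1 := h
    linarith
  have hz3 : 3 ≤ z := zz_ge k2
  have hz0 : (0 : ℝ) < z := by exact_mod_cast (by omega : 0 < z)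
  have hzlog : Real.log z ≤ ℓ ^ 3 := by
    rw [Real.log_le_iff_le_exp hz0]
    exact Nat.floor_le (Real.exp_pos _).le
  have hzlog0 : 0 < Real.log z := Real.log_pos (by exact_mod_cast (by omega : 1 < z))
  have hl4 : (1 : ℝ) ≤ ℓ ^ 4 := one_le_pow₀ (by linarith)
  have hL1X : 1 ≤ L1 X := one_le_L1 (by omega)
  have hAk : (A * k + 1 : ℝ) ^ p ≤ (11 * A + 1) ^ p * ℓ ^ p := by
    rw [← mul_pow]
    refine pow_le_pow_left₀ (by positivity) ?_ p
    nlinarith
  set W : Finset (Finset RR) := (QB z).powerset.filter fun S => S.card ≤ A * k with hW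
  have hmaps : ∀ S ∈ (SA X).filter (fun S => S.card ≤ A * k), sm z S ∈ W := by
    intro S hS
    rw [mem_filter, mem_SA] at hS
    rw [hW, mem_filter, mem_powerset]
    refine ⟨?_, (card_le_card (filter_subset _ _)).trans hS.2⟩
    intro π hπ
    unfold sm at hπ
    rw [mem_filter] at hπ
    rw [mem_QB]
    exact ⟨hπ.2, hS.1.1 π hπ.1⟩
  rw [← sum_fiberwise_of_maps_to hmaps (fun S => Fn X S)]
  have hone : ∀ S₀ ∈ W, ∑ S ∈ ((SA X).filter fun S => S.card ≤ A * k).filter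
      (fun S => sm z S = S₀), Fn X S ≤
      (a ^ S₀.card * (1 / (pN S₀ : ℝ))) * ((3 * b * (11 * A + 1) ^ p * (33 * A + 1)) *
        (ℓ ^ p * ℓ ^ 4) * Real.exp (-θ * ℓ) * (X * L1 X ^ (w - 1))) := by
    intro S₀ hS₀
    rw [hW, mem_filter, mem_powerset] at hS₀
    have hpq : ∀ u ∈ S₀, Pq u ∧ nrm u ≤ z := fun u hu => by
      have := hS₀.1 hu
      rw [mem_QB] at this
      exact ⟨this.2, this.1⟩
    set N := pN S₀ with hN
    have hN0 : 0 < N := pN_pos fun u hu => (hpq u hu).1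
    have hN0' : (0 : ℝ) < N := by exact_mod_cast hN0
    have hlN : Real.log N ≤ 11 * A * ℓ ^ 4 := by
      have e1 : Real.log N = ∑ p ∈ S₀, Real.log (nrm p) := by
        rw [hN]
        unfold pN
        push_cast
        rw [Real.log_prod]
        intro p hp
        have := nrm_ne (pq_ne (hpq p hp).1)
        exact_mod_cast this
      rw [e1]
      have hc : (S₀.card : ℝ) ≤ A * (11 * ℓ) := by
        have : (S₀.card : ℝ) ≤ A * k := by exact_mod_cast hS₀.2
        exact this.trans (mul_le_mul_of_nonneg_left hk11 hA0)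
      calc ∑ p ∈ S₀, Real.log (nrm p) ≤ ∑ _p ∈ S₀, Real.log z := by
            refine sum_le_sum fun p hp => ?_
            exact Real.log_le_log (by exact_mod_cast nrm_pos' (pq_ne (hpq p hp).1))
              (by exact_mod_cast (hpq p hp).2)
        _ = S₀.card * Real.log z := by rw [sum_const, nsmul_eq_mul]
        _ ≤ (A * (11 * ℓ)) * ℓ ^ 3 := by
            refine mul_le_mul hc hzlog hzlog0.le (by positivity)
        _ = 11 * A * ℓ ^ 4 := by ring
    have hlgN : lgn N ≤ (33 * A + 1) * ℓ ^ 4 := by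
      rcases Nat.lt_or_ge N 2 with h | h
      · have : N = 1 := by omega
        rw [this]
        have : lgn 1 = 1 := by unfold lgn; simp
        rw [this]
        nlinarith
      · have := lgn_le_log h
        nlinarith
    have hYle : ((X / N : ℕ) : ℝ) ≤ (X : ℝ) / N := Nat.cast_div_le
    have hYge : Real.exp (Real.log X / 3) ≤ ((X / N : ℕ) : ℝ) := by
      have e1 : (X : ℝ) / N < ((X / N : ℕ) : ℝ) + 1 := by
        rw [div_lt_iff₀ hN0']
        have := Nat.lt_mul_div_succ X hN0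
        have h' : ((X : ℕ) : ℝ) < ((N * (X / N + 1) : ℕ) : ℝ) := by exact_mod_cast this
        rw [Nat.cast_mul, Nat.cast_add, Nat.cast_one] at h'
        linarith
      have e2 : Real.exp (Real.log X - Real.log N) = (X : ℝ) / N := by
        rw [Real.exp_sub, Real.exp_log hX0, Real.exp_log hN0']
      have e3 : Real.exp (Real.log X / 3 + 1) ≤ (X : ℝ) / N := by
        rw [← e2]
        apply Real.exp_le_exp.2
        have hlX0 : 0 ≤ Real.log X := by
          rw [hlX]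
          positivity
        rw [← hlX] at k4
        linarith
      rw [Real.exp_add] at e3
      have e4 : (2 : ℝ) ≤ Real.exp 1 := by have := Real.exp_one_gt_d9; linarith
      have e5 : (1 : ℝ) ≤ Real.exp (Real.log X / 3) := by
        apply Real.one_le_exp
        rw [hlX]
        positivity
      nlinarith
    have hY1 : 1 ≤ X / N := by
      have : (0:ℝ) < ((X / N : ℕ) : ℝ) := lt_of_lt_of_le (Real.exp_pos _) hYge
      exact_mod_cast this
    have h1 := hcount X S₀ hpq hS₀.2 hY1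
    refine h1.trans ?_
    have hLY1 : 1 ≤ L1 (X / N) := one_le_L1 hY1
    have hLY : Real.exp ℓ / 3 ≤ L1 (X / N) := by
      have e1 : Real.exp ℓ / 3 ≤ Real.log ((X / N : ℕ) : ℝ) := by
        rw [← hlX, Real.le_log_iff_exp_le (by exact_mod_cast hY1)]
        exact hYge
      unfold L1
      linarith
    have hLle : L1 (X / N) ≤ L1 X := by
      unfold L1
      have : Real.log ((X / N : ℕ) : ℝ) ≤ Real.log X :=
        Real.log_le_log (by exact_mod_cast hY1) (by exact_mod_cast Nat.div_le_self X N)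
      linarith
    have hrp : (L1 (X / N)) ^ (-θ) ≤ 3 * Real.exp (-θ * ℓ) := by
      have e1 : (L1 (X / N)) ^ (-θ) ≤ (Real.exp ℓ / 3) ^ (-θ) :=
        Real.rpow_le_rpow_of_nonpos (by positivity) hLY (by linarith)
      refine e1.trans ?_
      rw [Real.div_rpow (Real.exp_pos _).le (by norm_num), ← Real.exp_mul, div_eq_mul_inv,
        ← Real.rpow_neg (by norm_num), neg_neg, mul_comm ℓ, mul_comm]
      refine mul_le_mul_of_nonneg_right ?_ (Real.exp_pos _).le
      calc (3:ℝ) ^ θ ≤ 3 ^ (1:ℝ) :=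
            Real.rpow_le_rpow_of_exponent_le (by norm_num) hθ1
        _ = 3 := Real.rpow_one _
    have hlg0 : 0 ≤ lgn N := (zero_le_one.trans (one_le_lgn N))
    have hrp0 : 0 ≤ (L1 (X / N)) ^ (-θ) := Real.rpow_nonneg (by linarith) _
    have hpow1 : L1 (X / N) ^ (w - 1) ≤ L1 X ^ (w - 1) :=
      pow_le_pow_left₀ (by linarith) hLle _
    calc b * (A * k + 1 : ℝ) ^ p * a ^ S₀.card * lgn N *
          (((X / N : ℕ) : ℝ) * L1 (X / N) ^ (w - 1) * L1 (X / N) ^ (-θ))
        ≤ b * ((11 * A + 1) ^ p * ℓ ^ p) * a ^ S₀.card * ((33 * A + 1) * ℓ ^ 4) *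
          (((X : ℝ) / N) * L1 X ^ (w - 1) * (3 * Real.exp (-θ * ℓ))) := by
          gcongr
      _ = _ := by
          ring
  refine (sum_le_sum hone).trans ?_
  rw [← sum_mul]
  have hsum : ∑ S₀ ∈ W, a ^ S₀.card * (1 / (pN S₀ : ℝ)) ≤
      Real.exp (a * ∑ π ∈ QB z, (1 : ℝ) / nrm π) := by
    refine le_trans ?_ (small_sum a ha z)
    exact sum_le_sum_of_subset_of_nonneg (filter_subset _ _) fun S _ _ => by positivity
  have hM : a * ∑ π ∈ QB z, (1 : ℝ) / nrm π ≤ a * C + 6 * a * Real.log ℓ := by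
    have h1 := hC z hz3
    have h2 := loglog_zz k2
    have h3 : ∑ π ∈ QB z, (1 : ℝ) / nrm π ≤ 6 * Real.log ℓ + C := by linarith
    have := mul_le_mul_of_nonneg_left h3 ha
    linarith
  have hlp : ∀ q : ℕ, ℓ ^ q = Real.exp (q * Real.log ℓ) := by
    intro q
    rw [← Real.log_pow]
    exact (Real.exp_log (by positivity)).symm
  have hZ0 : (0:ℝ) ≤ X * L1 X ^ (w - 1) := by positivity
  have hexp : Real.exp (a * C + 6 * a * Real.log ℓ) * ((ℓ ^ p * ℓ ^ 4) * Real.exp (-θ * ℓ)) =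
      Real.exp (a * C) * Real.exp ((p + 4 + 6 * a) * Real.log ℓ - θ * ℓ) := by
    rw [hlp p, hlp 4, ← Real.exp_add, ← Real.exp_add, ← Real.exp_add, ← Real.exp_add]
    congr 1
    push_cast
    ring
  calc _ ≤ Real.exp (a * C + 6 * a * Real.log ℓ) *
        ((3 * b * (11 * A + 1) ^ p * (33 * A + 1)) *
        (ℓ ^ p * ℓ ^ 4) * Real.exp (-θ * ℓ) * (X * L1 X ^ (w - 1))) := by
        refine mul_le_mul_of_nonneg_right (hsum.trans (Real.exp_le_exp.2 hM)) (by positivity)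
    _ = (3 * b * (11 * A + 1) ^ p * (33 * A + 1)) * (Real.exp (a * C + 6 * a * Real.log ℓ) *
        ((ℓ ^ p * ℓ ^ 4) * Real.exp (-θ * ℓ))) * (X * L1 X ^ (w - 1)) := by
        generalize Real.exp (a * C + 6 * a * Real.log ℓ) = e1
        generalize Real.exp (-θ * ℓ) = e2
        generalize (X : ℝ) * L1 X ^ (w - 1) = e3
        generalize ℓ ^ p * ℓ ^ 4 = e4
        generalize 3 * b * (11 * (A : ℝ) + 1) ^ p * (33 * A + 1) = e5
        ring
    _ = B₀ * Real.exp ((p + 4 + 6 * a) * Real.log ℓ - θ * ℓ) * (X * L1 X ^ (w - 1)) := by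
        rw [hexp, hB₀]
        generalize 3 * b * (11 * (A : ℝ) + 1) ^ p * (33 * A + 1) = e5
        ring
    _ ≤ B₀ * Real.exp (-(θ / 2) * ℓ) * (X * L1 X ^ (w - 1)) := by
        refine mul_le_mul_of_nonneg_right (mul_le_mul_of_nonneg_left (Real.exp_le_exp.2 ?_) hB₀0) hZ0
        linarith
    _ ≤ ε * (X * L1 X ^ (w - 1)) := by
        exact mul_le_mul_of_nonneg_right (le_of_lt k3) hZ0

/-- the bound for the power of `3` -/
lemma three_pow_log (n : ℕ) : (3 : ℝ) ^ (Nat.log 2 n + 1) ≤ 3 * ((n : ℝ) + 1) ^ 2 := by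
  have h1 : (2 : ℝ) ^ Nat.log 2 n ≤ n + 1 := by
    rcases Nat.eq_zero_or_pos n with h | h
    · rw [h]
      simp
    · have : (2 : ℝ) ^ Nat.log 2 n ≤ n := by exact_mod_cast Nat.pow_log_le_self 2 (by omega)
      linarith
  have h2 : (3 : ℝ) ^ Nat.log 2 n ≤ (2 ^ Nat.log 2 n) ^ 2 := by
    rw [← pow_mul, mul_comm, pow_mul]
    exact pow_le_pow_left₀ (by norm_num) (by norm_num) _
  calc (3 : ℝ) ^ (Nat.log 2 n + 1) = 3 * 3 ^ Nat.log 2 n := by rw [pow_succ]; ring
    _ ≤ 3 * (2 ^ Nat.log 2 n) ^ 2 := by linarith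
    _ ≤ _ := by
        have := pow_le_pow_left₀ (by positivity) h1 2
        linarith

/-- the number of the sets -/
theorem up : Up gpR 16 := by
  intro X hX
  rw [SAg_eq]
  refine le_trans ?_ (card_SB_le hX)
  have : (SA X).card ≤ (SB X).card := by
    apply card_le_card_of_injOn (fun S => ∏ π ∈ S, π)
    · intro S hS
      rw [mem_coe, mem_SA] at hS
      rw [mem_coe, mem_SB]
      exact ⟨by rw [nrm_prod]; exact hS.2, (PS_prod hS.1).1⟩
    · intro S hS T hT h
      rw [mem_coe, mem_SA] at hS hT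
      rw [← (PS_prod hS.1).2, ← (PS_prod hT.1).2]
      exact congrArg Pool.Agent.R426.QK.PD h
  exact_mod_cast this

/-- QA-WFBC -/
theorem t_WFBC : S_WFBC := by
  intro hR hH hM hW1 hW2 Q _ _ w A K ε hw hε
  obtain ⟨C, hC1, hC⟩ := hH
  set r : ℝ := (Fintype.card Q : ℝ) with hr
  have hr1 : 1 ≤ r := by
    have : 0 < Fintype.card Q := Fintype.card_pos
    rw [hr]
    exact_mod_cast this
  set θ : ℝ := 1 / (3 * r) with hθ
  have hθ0 : 0 < θ := by positivity
  have hθ1 : θ < 1 := by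
    rw [hθ, div_lt_one (by positivity)]
    linarith
  obtain ⟨C₃, hC₃, H⟩ := sum_theta hW1 hW2 gpR 16 up w hw θ hθ0 hθ1
  refine genW hM A w (2 * K) (3 ^ K * 2 * w) (r * 3 ^ K * 4 * C₃ * (2 * C)) (θ / 3) (by positivity)
    (by positivity) (by positivity) (by linarith)
    (fun X S => (w : ℝ) ^ S.card * pr S (fun γ : RR → Q => ¬ NdC K γ (sm (zz X) S) (la (zz X) S)))
    ?_ ε hε
  intro X S₀ hS₀ hcard hY
  set F := ((SA X).filter fun S => S.card ≤ A * kk X).filter (fun S => sm (zz X) S = S₀) with hFdef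
  have hF : ∀ S ∈ F, (S ∈ SA X ∧ S.card ≤ A * kk X) ∧ sm (zz X) S = S₀ := by
    intro S hS
    rw [hFdef, mem_filter, mem_filter] at hS
    exact hS
  set m : ℕ := K * (S₀.card + Nat.log 2 (A * kk X) + 1) with hm
  set N := pN S₀ with hN
  set Y := X / N with hYdef
  have h1 : ∀ S ∈ F, (w : ℝ) ^ S.card *
      pr S (fun γ : RR → Q => ¬ NdC K γ (sm (zz X) S) (la (zz X) S)) ≤
      (w : ℝ) ^ S.card * (r * (3 ^ m * ∑ p ∈ PP S₀, ∏ π ∈ la (zz X) S, gp p π ^ θ)) := by
    intro S hS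
    obtain ⟨⟨e1, e2⟩, e3⟩ := hF S hS
    refine mul_le_mul_of_nonneg_left (pt hR X (zz X) K m S e1 S₀ e3 ?_) (by positivity)
    rw [hm]
    have : (la (zz X) S).card ≤ A * kk X := (card_le_card (filter_subset _ _)).trans e2
    have := Nat.log_mono_right (b := 2) this
    gcongr
  have hlg := lgn_pos N
  have hlg1 := one_le_lgn N
  have hLY := one_le_L1 hY
  set Z : ℝ := ((Y : ℕ) : ℝ) * L1 Y ^ (w - 1) with hZ
  have hZ0 : 0 ≤ Z := by positivity
  have hr0 : 0 ≤ L1 Y ^ (-(θ / 3)) := Real.rpow_nonneg (by linarith) _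
  have h3 : ∀ p ∈ PP S₀, ∑ S ∈ F, (w : ℝ) ^ S.card * ∏ π ∈ la (zz X) S, gp p π ^ θ ≤
      (w : ℝ) ^ S₀.card * (C₃ * (2 * C * lgn N) * Z * L1 Y ^ (-(θ / 3))) := by
    intro p hp
    rw [mem_PP] at hp
    obtain ⟨⟨p1, p2, p3⟩, p4⟩ := hp
    have e1 := fiber X (zz X) w S₀ (fun u hu => (hS₀ u hu).1) F
      (fun S hS => ⟨(hF S hS).1.1, (hF S hS).2⟩) (fun π => gp p π ^ θ)
      (fun π => Real.rpow_nonneg (by have := gp_ge p π; linarith) _)
    refine e1.trans (mul_le_mul_of_nonneg_left ?_ (by positivity))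
    obtain ⟨a1, a2⟩ := PS_prod (S := p.1) fun π hπ => (hS₀ π (p1 hπ)).1
    have hab : (∏ u ∈ p.1, u) ≠ 1 ∨ p.2.1 ≠ 0 ∨ p.2.2 ≠ 0 := by
      rcases p4 with h | h
      · left
        intro h1
        apply h
        rw [← a2, h1, PD_one]
      · exact Or.inr h
    have hnn : nrm (∏ u ∈ p.1, u) ≤ N := by
      rw [nrm_prod, hN]
      unfold pN
      refine prod_le_prod_of_subset_of_one_le' p1 fun u hu _ => ?_
      exact nrm_pos' (pq_ne (hS₀ u hu).1)
    exact H (gp p) (2 * C * lgn N) (by nlinarith) (fun π _ => ⟨by have := gp_ge p π; linarith,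
      gp_le p π⟩) (sav hC1 hC _ _ _ a1 p2 p3 hab hnn) Y hY
  have h4 : (3 : ℝ) ^ m ≤ 3 ^ K * (A * kk X + 1 : ℝ) ^ (2 * K) * (3 ^ K) ^ S₀.card := by
    have e1 := three_pow_log (A * kk X)
    have e2 : (3 : ℝ) ^ m = (3 ^ K) ^ S₀.card * (3 ^ (Nat.log 2 (A * kk X) + 1)) ^ K := by
      rw [hm, ← pow_mul, ← pow_mul, ← pow_add]
      congr 1
      ring
    rw [e2]
    have e3 := pow_le_pow_left₀ (by positivity) e1 K
    push_cast at e3
    calc ((3:ℝ) ^ K) ^ S₀.card * (3 ^ (Nat.log 2 (A * kk X) + 1)) ^ K ≤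
        (3 ^ K) ^ S₀.card * (3 * ((A : ℝ) * kk X + 1) ^ 2) ^ K :=
          mul_le_mul_of_nonneg_left e3 (by positivity)
      _ = _ := by
          generalize (A : ℝ) * kk X + 1 = x
          rw [mul_pow, ← pow_mul x 2 K]
          ring
  calc ∑ S ∈ F, (w : ℝ) ^ S.card *
        pr S (fun γ : RR → Q => ¬ NdC K γ (sm (zz X) S) (la (zz X) S)) ≤
      ∑ S ∈ F, (w : ℝ) ^ S.card * (r * (3 ^ m * ∑ p ∈ PP S₀, ∏ π ∈ la (zz X) S, gp p π ^ θ)) :=
        sum_le_sum h1
    _ = r * 3 ^ m * ∑ p ∈ PP S₀, ∑ S ∈ F, (w : ℝ) ^ S.card * ∏ π ∈ la (zz X) S, gp p π ^ θ := by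
        rw [sum_comm, mul_sum]
        refine sum_congr rfl fun S _ => ?_
        rw [← mul_sum]
        ring
    _ ≤ r * 3 ^ m * ∑ p ∈ PP S₀, (w : ℝ) ^ S₀.card * (C₃ * (2 * C * lgn N) * Z * L1 Y ^ (-(θ / 3))) :=
        mul_le_mul_of_nonneg_left (sum_le_sum h3) (by positivity)
    _ = r * 3 ^ m * ((PP S₀).card * ((w : ℝ) ^ S₀.card *
          (C₃ * (2 * C * lgn N) * Z * L1 Y ^ (-(θ / 3))))) := by rw [sum_const, nsmul_eq_mul]
    _ ≤ r * (3 ^ K * (A * kk X + 1 : ℝ) ^ (2 * K) * (3 ^ K) ^ S₀.card) *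
          ((4 * 2 ^ S₀.card) * ((w : ℝ) ^ S₀.card *
          (C₃ * (2 * C * lgn N) * Z * L1 Y ^ (-(θ / 3))))) := by
        have := card_PP S₀
        gcongr
    _ = _ := by
        rw [mul_pow, mul_pow, hZ]
        ring

end Pool.Agent.N424.QA
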